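import Pool.Agent.N879.GD.Stm

set_option autoImplicit false

/-!
Project GDZ (helper260), package FIN (helper591): the final assembly for `∫ F(t) ∏ |ζ(1/2+iλ_j t)|² dt`,
outside a set of dilations of Hausdorff dimension less than `k`.
-/

namespace Pool.Agent.U591.GZ

open Complex Filter Topology MeasureTheory Set
open Pool.Agent.Y969.GP (ff V ht lam PS co PX)
open Pool.Agent.N879.GD

/-- `(2^n)^(-c) = ((2:ℝ)^(-c))^n` -/
lemma two_pow (c : ℝ) (n : ℕ) : ((2 : ℝ) ^ n) ^ c = ((2 : ℝ) ^ c) ^ n := by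
  rw [← Real.rpow_natCast, ← Real.rpow_mul (by norm_num), ← Real.rpow_natCast,
    ← Real.rpow_mul (by norm_num), mul_comm]

lemma two_lt {c : ℝ} (hc : c < 0) : (2 : ℝ) ^ c < 1 :=
  Real.rpow_lt_one_of_one_lt_of_neg (by norm_num) hc

theorem t_FIN (h1 : S_DIL1) (h2 : S_DILK) (h3 : S_MB) (h4 : S_LIP) (h5 : S_DET) (h6 : S_COV)
    (h7 : S_INT) : S_FIN := by
  obtain ⟨d, hd0, hd1, hD⟩ := h1
  have hK : P_DILK (d / 2) := h2 d (d / 2) (by linarith) (by linarith) hd1 hD
  refine ⟨d / 20, by linarith, by linarith, fun k hk => ?_⟩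
  obtain ⟨K, hK1, hL⟩ := h4 k
  have hK0 : 0 < K := by linarith
  set μ : ℝ := min (d / 8 / (2 * K)) (1 / 2) with hμ
  have hμ0 : 0 < μ := lt_min (by positivity) (by norm_num)
  have hμ1 : μ ≤ 1 / 2 := min_le_right _ _
  have hμ2 : K * μ ≤ d / 16 := by
    have h : μ ≤ d / 8 / (2 * K) := min_le_left _ _
    calc K * μ ≤ K * (d / 8 / (2 * K)) := mul_le_mul_of_nonneg_left h hK0.le
      _ = d / 16 := by field_simp; ring
  have hk1 : (1 : ℝ) ≤ k := by exact_mod_cast hk
  refine ⟨k - μ, by linarith, by linarith, fun F hF => ?_⟩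
  refine ⟨⋃ m : ℕ, {x | ∃ᶠ n in atTop, x ∈ Bad k F ((m : ℝ) + 1) 1 (d / 4) (d / 8) n}, ?_, ?_⟩
  · rw [dimH_iUnion]
    refine iSup_le fun m => ?_
    have hm : (1 : ℝ) ≤ (m : ℝ) + 1 := by
      have : (0 : ℝ) ≤ m := Nat.cast_nonneg m
      linarith
    obtain ⟨C, hC0, hC⟩ := h3 (d / 2) (d / 4) (d / 8) (d / 8) (by linarith) (by linarith)
      (by linarith) (by linarith) (by linarith) hK (by linarith) k F hF (2 * ((m : ℝ) + 1)) (1 / 2)
      (by linarith) (by norm_num)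
    refine h6 k (k - μ) (fun n => Bad k F ((m : ℝ) + 1) 1 (d / 4) (d / 8) n)
      (fun n => Bad k F (2 * ((m : ℝ) + 1)) (1 / 2) (d / 4) (d / 8) n)
      (fun n => ((2 : ℝ) ^ n) ^ (-K)) (fun n => C * ((2 : ℝ) ^ n) ^ (-(d / 8))) hk (by linarith)
      (fun n => by positivity) ?_ (fun n => by positivity) ?_ hC ?_
    · simp only [two_pow]
      exact tendsto_pow_atTop_nhds_zero_of_lt_one (by positivity) (two_lt (by linarith))
    · exact hL F ((m : ℝ) + 1) (d / 4) (d / 8) hF hm (by linarith) (by linarith) (by linarith)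
        (by linarith)
    · have e : ∀ n : ℕ, C * ((2 : ℝ) ^ n) ^ (-(d / 8)) * (((2 : ℝ) ^ n) ^ (-K)) ^ ((k : ℝ) - μ - k) =
          C * ((2 : ℝ) ^ (-(d / 8) + K * μ)) ^ n := by
        intro n
        have hp : (0 : ℝ) < (2 : ℝ) ^ n := by positivity
        rw [← Real.rpow_mul hp.le, mul_assoc, ← Real.rpow_add hp, two_pow]
        congr 3
        ring
      simp only [e]
      exact (summable_geometric_of_lt_one (by positivity) (two_lt (by linarith))).mul_left C
  · intro l hl hpos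
    obtain ⟨A, hA⟩ : ∃ m : ℕ, ∀ j, ((m : ℝ) + 1)⁻¹ ≤ l j ∧ l j ≤ (m : ℝ) + 1 := by
      obtain ⟨m, hm⟩ := exists_nat_ge (∑ j, (l j + (l j)⁻¹))
      refine ⟨m, fun j => ?_⟩
      have h8 : l j + (l j)⁻¹ ≤ ∑ j, (l j + (l j)⁻¹) :=
        Finset.single_le_sum (f := fun j => l j + (l j)⁻¹)
          (fun i _ => by have := hpos i; positivity) (Finset.mem_univ j)
      have h9 : 0 < (l j)⁻¹ := inv_pos.2 (hpos j)
      have h10 := hpos j
      refine ⟨?_, by linarith⟩
      rw [inv_le_comm₀ (by linarith) h10]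
      linarith
    have hl' : ∀ᶠ n : ℕ in atTop, l ∉ Bad k F ((A : ℝ) + 1) 1 (d / 4) (d / 8) n := by
      have h8 := fun h => hl (mem_iUnion.2 ⟨A, h⟩)
      simpa [Filter.not_frequently] using h8
    have hA1 : (1 : ℝ) ≤ (A : ℝ) + 1 := by
      have : (0 : ℝ) ≤ A := Nat.cast_nonneg A
      linarith
    obtain ⟨C, hC⟩ := h5 k F ((A : ℝ) + 1) (d / 4) (d / 8) (d / 20) hF hA1 (by linarith)
      (by linarith) (by linarith) (by linarith) (by linarith) (by linarith) (by linarith) l hA hl'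
    refine ⟨C, fun T hT => ?_⟩
    obtain ⟨i1, i2⟩ := h7 k F hF l hpos T
    have e : (∫ t in (0 : ℝ)..T, F t * ((∏ j, ff (l j * t) : ℝ) : ℂ)) -
        ∫ t in (0 : ℝ)..T, F t * ((∏ j, D0 (l j * t) : ℝ) : ℂ) =
        ∫ t in Ioc 0 T, F t * ((dif l t : ℝ) : ℂ) := by
      rw [intervalIntegral.integral_of_le (by linarith), intervalIntegral.integral_of_le (by linarith),
        ← integral_sub i1 i2]
      refine integral_congr_ae (ae_of_all _ fun t => ?_)
      simp only [dif]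
      push_cast
      ring
    rw [e]
    exact hC T hT

end Pool.Agent.U591.GZ
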